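import Pool.Agent.H97.PK.Targets
import Pool.Agent.H65k.Final

/-!
The intersection inequality for pairs of joint rank at most `D + 2`.
-/

open MeasureTheory Set Metric
open scoped ENNReal

namespace Pool.Agent.H56.PK
open Pool.Agent.H97.PK

lemma kpi_null {D : ℕ} (hD : 1 ≤ D) (x : E D) : volume ({x} : Set (E D)) = 0 := by
  haveI : Nonempty (Fin D) := ⟨⟨0, hD⟩⟩
  haveI : Nontrivial (E D) := by
    refine ⟨⟨EuclideanSpace.single ⟨0, hD⟩ (1 : ℝ), 0, ?_⟩⟩
    intro h
    have := congrArg (fun v : E D => v ⟨0, hD⟩) h
    simp at this
  exact measure_singleton x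

lemma kpi_inter {D n : ℕ} (p : Fin n → E D) (r : Fin n → ℝ) :
    {x : EuclideanSpace ℝ (Fin D) |
      n ≤ (Finset.univ.filter (fun i => dist x (p i) ≤ r i)).card} = ⋂ i, closedBall (p i) (r i) := by
  ext x
  simp only [mem_setOf_eq, mem_iInter, mem_closedBall]
  constructor
  · intro h i
    have h1 : (Finset.univ.filter (fun i => dist x (p i) ≤ r i)) = Finset.univ := by
      apply Finset.eq_univ_of_card
      apply le_antisymm
      · exact Finset.card_le_univ _
      · simpa using h
    have h2 : i ∈ (Finset.univ.filter (fun i => dist x (p i) ≤ r i)) := by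
      rw [h1]; exact Finset.mem_univ i
    simpa using h2
  · intro h
    have h1 : (Finset.univ.filter (fun i => dist x (p i) ≤ r i)) = Finset.univ := by
      rw [Finset.filter_eq_self]
      intro i _
      exact h i
    rw [h1]
    simp

theorem pf_kpi : T_KPI := by
  intro D hD ι _ _ p q hc hr r
  by_cases h0 : ∃ i, r i ≤ 0
  · obtain ⟨i, hi⟩ := h0
    have h1 : (⋂ j, closedBall (p j) (r j)) ⊆ {p i} := by
      intro x hx
      have h2 := mem_iInter.1 hx i
      rw [mem_closedBall] at h2
      have h3 : dist x (p i) = 0 := le_antisymm (h2.trans hi) dist_nonneg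
      rw [dist_eq_zero] at h3
      exact h3
    have h2 : vI p r = 0 := by
      unfold vI
      exact measure_mono_null h1 (kpi_null hD _)
    rw [h2]
    exact zero_le
  · push Not at h0
    set n := Fintype.card ι with hn
    have hn0 : 0 < n := Fintype.card_pos
    let e : Fin n ≃ ι := (Fintype.equivFin ι).symm
    have hrk : Module.finrank ℝ (vectorSpan ℝ
        (Set.range fun i => ((p ∘ e) i, (q ∘ e) i))) ≤ D + 2 := by
      have h3 : (Set.range fun i => ((p ∘ e) i, (q ∘ e) i)) = Set.range fun i => (p i, q i) := by
        exact e.surjective.range_comp (fun i => (p i, q i))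
      rw [h3]
      exact hr
    have hτ : Antitone (fun k : Fin n => if k.val + 1 = n then (-1 : ℝ) else 0) := by
      intro k k' hk
      simp only
      by_cases h4 : k'.val + 1 = n
      · rw [if_pos h4]
        split_ifs <;> norm_num
      · rw [if_neg h4, if_neg]
        have h5 : k.val ≤ k'.val := hk
        have h6 := k'.isLt
        omega
    have key := Pool.Agent.H65k.kneser_main D n (p ∘ e) (q ∘ e) (r ∘ e) (fun i => h0 _)
      (fun i j => hc _ _) (Or.inr (Or.inr (Or.inl hrk))) _ hτ
    have hsum : ∀ F : Fin n → ℝ, ∑ k : Fin n, (if k.val + 1 = n then (-1 : ℝ) else 0) * F k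
        = - F ⟨n - 1, by omega⟩ := by
      intro F
      rw [Finset.sum_eq_single (⟨n - 1, by omega⟩ : Fin n)]
      · rw [if_pos]
        · ring
        · change n - 1 + 1 = n
          omega
      · intro b _ hb
        rw [if_neg]
        · ring
        · intro h
          apply hb
          apply Fin.ext
          change b.val = n - 1
          omega
      · intro h
        exact absurd (Finset.mem_univ _) h
    rw [hsum, hsum] at key
    have hn1 : n - 1 + 1 = n := by omega
    simp only [hn1] at key
    rw [kpi_inter, kpi_inter] at key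
    have hI : ∀ s : ι → E D, (⋂ i, closedBall ((s ∘ e) i) ((r ∘ e) i)) =
        ⋂ i, closedBall (s i) (r i) := by
      intro s
      exact e.surjective.iInter_comp (fun i => closedBall (s i) (r i))
    rw [hI p, hI q] at key
    have hfin : ∀ s : ι → E D, volume (⋂ i, closedBall (s i) (r i)) ≠ ∞ := by
      intro s
      obtain ⟨i0⟩ := (inferInstance : Nonempty ι)
      refine ne_top_of_le_ne_top ?_ (measure_mono (iInter_subset _ i0))
      exact (measure_closedBall_lt_top).ne
    unfold vI
    rw [← ENNReal.toReal_le_toReal (hfin p) (hfin q)]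
    linarith

end Pool.Agent.H56.PK
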