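import Pool.Agent.H97.PK.Targets2

/-!
The weighted functional vanishes at `0`, is monotone and concave in `r^d`.
-/

open MeasureTheory Set Metric
open scoped ENNReal

namespace Pool.Agent.H56.PK
open Pool.Agent.H97.PK

/-- the volume of the points of multiplicity more than `k` -/
noncomputable def wkcV {d n : ℕ} (p : Fin n → E d) (k : ℕ) (r : ℝ) : ℝ :=
  (volume {x : E d | k + 1 ≤ (Finset.univ.filter (fun i => dist x (p i) ≤ r)).card}).toReal

lemma wkc_sub {d n : ℕ} (p : Fin n → E d) (k : ℕ) (r : ℝ) :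
    {x : E d | k + 1 ≤ (Finset.univ.filter (fun i => dist x (p i) ≤ r)).card} ⊆
      ⋃ i, closedBall (p i) r := by
  intro x hx
  have h1 : 0 < (Finset.univ.filter (fun i => dist x (p i) ≤ r)).card := by
    have : k + 1 ≤ (Finset.univ.filter (fun i => dist x (p i) ≤ r)).card := hx
    omega
  obtain ⟨i, hi⟩ := Finset.card_pos.1 h1
  have h2 := (Finset.mem_filter.1 hi).2
  exact mem_iUnion.2 ⟨i, h2⟩

lemma wkc_fin {d n : ℕ} (p : Fin n → E d) (k : ℕ) (r : ℝ) :
    volume {x : E d | k + 1 ≤ (Finset.univ.filter (fun i => dist x (p i) ≤ r)).card} ≠ ∞ := by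
  refine ne_top_of_le_ne_top ?_ (measure_mono (wkc_sub p k r))
  refine ne_top_of_le_ne_top ?_ (measure_iUnion_fintype_le _ _)
  rw [ENNReal.sum_ne_top]
  intro i _
  exact (measure_closedBall_lt_top).ne

lemma wkc_mono {d n : ℕ} (p : Fin n → E d) (k : ℕ) {r s : ℝ} (h : r ≤ s) :
    wkcV p k r ≤ wkcV p k s := by
  unfold wkcV
  refine ENNReal.toReal_mono (wkc_fin p k s) (measure_mono ?_)
  intro x hx
  have h1 : k + 1 ≤ (Finset.univ.filter (fun i => dist x (p i) ≤ r)).card := hx
  refine h1.trans (Finset.card_le_card ?_)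
  intro i hi
  rw [Finset.mem_filter] at hi ⊢
  exact ⟨hi.1, hi.2.trans h⟩

lemma wkc_zero {d n : ℕ} (hd : 1 ≤ d) (p : Fin n → E d) (k : ℕ) : wkcV p k 0 = 0 := by
  have h1 : volume {x : E d | k + 1 ≤ (Finset.univ.filter (fun i => dist x (p i) ≤ 0)).card}
      = 0 := by
    have : Nontrivial (E d) := by
      refine ⟨⟨EuclideanSpace.single ⟨0, hd⟩ (1 : ℝ), 0, ?_⟩⟩
      intro h
      have := congrArg (fun v : E d => v ⟨0, hd⟩) h
      simp at this
    refine measure_mono_null (wkc_sub p k 0) ?_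
    rw [measure_iUnion_null_iff]
    intro i
    rw [closedBall_zero]
    exact measure_singleton _
  unfold wkcV
  rw [h1]
  rfl

lemma wkc_abel (t V : ℕ → ℝ) (N : ℕ) : ∑ k ∈ Finset.range N, t k * V k =
    t N * (∑ k ∈ Finset.range N, V k) +
      ∑ m ∈ Finset.range N, (t m - t (m + 1)) * ∑ k ∈ Finset.range (m + 1), V k := by
  induction N with
  | zero => simp
  | succ N ih =>
    rw [Finset.sum_range_succ, ih, Finset.sum_range_succ (fun m => (t m - t (m + 1)) *
      ∑ k ∈ Finset.range (m + 1), V k), Finset.sum_range_succ V N]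
    ring

theorem pf_wkc (hKNS : T_KNS) : T_WKC := by
  intro d hd n τ p hτ h0
  set t : ℕ → ℝ := fun k => if h : k < n then τ ⟨k, h⟩ else 0 with ht
  have hW : ∀ r, WW τ p r = ∑ k ∈ Finset.range n, t k * wkcV p k r := by
    intro r
    unfold WW
    rw [Finset.sum_range]
    refine Finset.sum_congr rfl fun k _ => ?_
    have : t k.val = τ k := by
      simp only [ht]
      rw [dif_pos k.isLt]
    rw [this]
    rfl
  have htn : t n = 0 := by
    simp only [ht]
    rw [dif_neg (lt_irrefl n)]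
  have hS : ∀ r, WW τ p r = ∑ m ∈ Finset.range n, (t m - t (m + 1)) * SM (m + 1) p r := by
    intro r
    rw [hW, wkc_abel, htn, zero_mul, zero_add]
    rfl
  have hc : ∀ m ∈ Finset.range n, 0 ≤ t m - t (m + 1) := by
    intro m hm
    have hm' := Finset.mem_range.1 hm
    rw [sub_nonneg]
    simp only [ht]
    rw [dif_pos hm']
    by_cases h : m + 1 < n
    · rw [dif_pos h]
      exact hτ (by
        rw [Fin.mk_le_mk]
        omega)
    · rw [dif_neg h]
      exact h0 _
  refine ⟨?_, ?_, ?_⟩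
  · rw [hW]
    refine Finset.sum_eq_zero fun k _ => ?_
    rw [wkc_zero hd, mul_zero]
  · intro r s _ hrs
    rw [hW, hW]
    refine Finset.sum_le_sum fun k hk => ?_
    have hk' := Finset.mem_range.1 hk
    have : 0 ≤ t k := by
      simp only [ht]
      rw [dif_pos hk']
      exact h0 _
    exact mul_le_mul_of_nonneg_left (wkc_mono p k hrs) this
  · intro r₀ r₁ r₂ h1 h2 h3
    rw [hS, hS, hS, ← Finset.sum_sub_distrib, ← Finset.sum_sub_distrib, Finset.sum_mul,
      Finset.sum_mul]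
    refine Finset.sum_le_sum fun m hm => ?_
    have h4 := mul_le_mul_of_nonneg_left (hKNS d hd n (m + 1) p r₀ r₁ r₂ h1 h2 h3) (hc m hm)
    calc ((t m - t (m + 1)) * SM (m + 1) p r₂ - (t m - t (m + 1)) * SM (m + 1) p r₁) *
          (r₁ ^ d - r₀ ^ d)
        = (t m - t (m + 1)) * ((SM (m + 1) p r₂ - SM (m + 1) p r₁) * (r₁ ^ d - r₀ ^ d)) := by
          ring
      _ ≤ (t m - t (m + 1)) * ((SM (m + 1) p r₁ - SM (m + 1) p r₀) * (r₂ ^ d - r₁ ^ d)) := h4
      _ = _ := by ring

end Pool.Agent.H56.PK
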